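import Pool.Agent.Q45.NE.Stm

/-!
# Doubly transitive solvable groups, and splitting over solvable extensions
-/

set_option autoImplicit false

open Polynomial

namespace Pool.Agent.Q45.NE.JSolv

open Pool.Agent.Q45.NE

/-- the last nontrivial term of the derived series -/
theorem exists_abelian_normal (G : Type) [Group G] (hsol : Group.IsSolvable G) (hG : ∃ g : G, g ≠ 1) :
    ∃ A : Subgroup G, A.Normal ∧ A ≠ ⊥ ∧ ∀ s ∈ A, ∀ t ∈ A, s * t = t * s := by
  classical
  have hex : ∃ n, derivedSeries G n = ⊥ := hsol.solvable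
  have hn := Nat.find_spec hex
  have hmin : ∀ m, m < Nat.find hex → derivedSeries G m ≠ ⊥ := fun m hm => Nat.find_min hex hm
  obtain ⟨n, hn'⟩ : ∃ n, n = Nat.find hex := ⟨_, rfl⟩
  rw [← hn'] at hn hmin
  cases n with
  | zero =>
    exfalso
    obtain ⟨g, hg⟩ := hG
    rw [derivedSeries_zero] at hn
    have h1 : g ∈ (⊤ : Subgroup G) := Subgroup.mem_top g
    rw [hn] at h1
    exact hg (Subgroup.mem_bot.1 h1)
  | succ m =>
    refine ⟨derivedSeries G m, derivedSeries_normal G m, hmin m (by omega), fun s hs t ht => ?_⟩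
    rw [derivedSeries_succ] at hn
    have h1 := Subgroup.commutator_mem_commutator hs ht
    rw [hn, Subgroup.mem_bot, commutatorElement_eq_one_iff_mul_comm] at h1
    exact h1

theorem solv : SolvS := by
  intro G α _ _ _ _ _ hsol h2 hcard
  classical
  have : Nontrivial α := Fintype.one_lt_card_iff_nontrivial.1 (by omega)
  obtain ⟨a, b, hab⟩ := exists_pair_ne α
  have hG : ∃ g : G, g ≠ 1 := by
    obtain ⟨g, hg, _⟩ := h2 a b b a hab hab.symm
    refine ⟨g, ?_⟩
    rintro rfl
    rw [one_smul] at hg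
    exact hab hg
  obtain ⟨A, hAn, hA1, hAc⟩ := exists_abelian_normal G hsol hG
  -- a nontrivial element
  obtain ⟨s, hs, hs1⟩ : ∃ s ∈ A, s ≠ 1 := by
    by_contra h
    push Not at h
    exact hA1 ((Subgroup.eq_bot_iff_forall A).2 h)
  obtain ⟨x, hx⟩ : ∃ x : α, s • x ≠ x := by
    by_contra h
    push Not at h
    exact hs1 (FaithfulSMul.eq_of_smul_eq_smul (α := α) fun y => by rw [h y, one_smul])
  -- transitivity
  have htr : ∀ c d : α, ∃ t ∈ A, t • c = d := by
    intro c d
    by_cases hcd : c = d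
    · exact ⟨1, A.one_mem, by rw [one_smul, hcd]⟩
    · obtain ⟨g, hg1, hg2⟩ := h2 x (s • x) c d hx.symm hcd
      refine ⟨g * s * g⁻¹, hAn.conj_mem s hs g, ?_⟩
      rw [mul_smul, mul_smul, ← hg1, inv_smul_smul]
      exact hg2
  -- regularity
  have hreg : ∀ t ∈ A, ∀ c : α, t • c = c → t = 1 := by
    intro t ht c htc
    refine FaithfulSMul.eq_of_smul_eq_smul (α := α) fun y => ?_
    obtain ⟨u, hu, rfl⟩ := htr c y
    rw [one_smul, ← mul_smul, hAc t ht u hu, mul_smul, htc]
  -- the number of elements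
  have hcardA : Nat.card A = Fintype.card α := by
    rw [← Nat.card_eq_fintype_card]
    refine Nat.card_congr (Equiv.ofBijective (fun t : A => (t : G) • a) ⟨?_, ?_⟩)
    · intro t u htu
      have h3 : ((u : G)⁻¹ * t) • a = a := by
        rw [mul_smul, inv_smul_eq_iff]
        exact htu
      have h4 := hreg _ (A.mul_mem (A.inv_mem u.2) t.2) a h3
      rw [inv_mul_eq_one] at h4
      exact Subtype.ext h4.symm
    · intro y
      obtain ⟨t, ht, h3⟩ := htr a y
      exact ⟨⟨t, ht⟩, h3⟩
  -- all orders are the same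
  have hord : ∀ t ∈ A, t ≠ 1 → orderOf t = orderOf s := by
    intro t ht ht1
    have h3 : a ≠ s • a := fun h => hs1 (hreg s hs a h.symm)
    have h4 : a ≠ t • a := fun h => ht1 (hreg t ht a h.symm)
    obtain ⟨g, hg1, hg2⟩ := h2 a (s • a) a (t • a) h3 h4
    have hga : g⁻¹ • a = a := by rw [inv_smul_eq_iff, hg1]
    have h5 : (t⁻¹ * (g * s * g⁻¹)) • a = a := by
      rw [mul_smul, mul_smul, mul_smul, hga, hg2, inv_smul_smul]
    have h6 := hreg _ (A.mul_mem (A.inv_mem ht) (hAn.conj_mem s hs g)) a h5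
    rw [inv_mul_eq_one] at h6
    rw [h6]
    have h7 : g * s * g⁻¹ = MulAut.conj g s := by rw [MulAut.conj_apply]
    rw [h7]
    exact orderOf_injective (MulAut.conj g).toMonoidHom (MulAut.conj g).injective s
  -- a prime
  have hA2 : Nat.card A ≠ 1 := by omega
  obtain ⟨p, hp, hpd⟩ := Nat.exists_prime_and_dvd hA2
  have hpf : Fact p.Prime := ⟨hp⟩
  have : Fintype A := Fintype.ofFinite A
  obtain ⟨y, hy⟩ := exists_prime_orderOf_dvd_card (G := A) p (by rwa [← Nat.card_eq_fintype_card])
  have hy' : orderOf (y : G) = p := by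
    rw [← hy]
    exact orderOf_injective A.subtype A.subtype_injective y
  have hsp : orderOf s = p := by
    rw [← hord (y : G) y.2 ?_, hy']
    intro h
    rw [h, orderOf_one] at hy'
    exact hp.one_lt.ne hy'
  have hpg : IsPGroup p A := by
    rw [IsPGroup.iff_orderOf]
    intro t
    by_cases ht : t = 1
    · exact ⟨0, by rw [ht, orderOf_one, pow_zero]⟩
    · refine ⟨1, ?_⟩
      rw [pow_one, ← hsp, ← hord (t : G) t.2 fun h => ht (Subtype.ext h)]
      exact (orderOf_injective A.subtype A.subtype_injective t).symm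
  obtain ⟨n, hn⟩ := IsPGroup.iff_card.1 hpg
  rw [← hcardA, hn]
  refine hp.isPrimePow.pow ?_
  rintro rfl
  rw [pow_zero] at hn
  exact hA2 hn

/-- Galois conjugates -/
theorem exists_aut {k E : Type} [Field k] [Field E] [Algebra k E] [Normal k E] {q : k[X]} (hq : q.Monic)
    (hi : Irreducible q) {a b : E} (ha : aeval a q = 0) (hb : aeval b q = 0) :
    ∃ σ : E ≃ₐ[k] E, σ a = b := by
  have h1 : q = minpoly k a := minpoly.eq_of_irreducible_of_monic hi ha hq
  have h2 : q = minpoly k b := minpoly.eq_of_irreducible_of_monic hi hb hq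
  have h3 : IsConjRoot k b a := h2.symm.trans h1
  exact isConjRoot_iff_exists_algEquiv.1 h3

/-- double transitivity -/
theorem dbl {k E : Type} [Field k] [Field E] [Algebra k E] [IsGalois k E] (p : k[X]) (hm : p.Monic)
    (hi : Irreducible p) (hD : IsDomain (AdjoinRoot (quo p))) {a b c d : E} (ha : aeval a p = 0)
    (hb : aeval b p = 0) (hc : aeval c p = 0) (hd : aeval d p = 0) (hab : a ≠ b) (hcd : c ≠ d) :
    ∃ σ : E ≃ₐ[k] E, σ a = c ∧ σ b = d := by
  obtain ⟨σ, hσ⟩ := exists_aut hm hi ha hc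
  have hfi : Fact (Irreducible p) := ⟨hi⟩
  let φ : AdjoinRoot p →ₐ[k] E := AdjoinRoot.liftAlgHom p (Algebra.ofId k E) c hc
  let _ : Algebra (AdjoinRoot p) E := φ.toRingHom.toAlgebra
  have : IsScalarTower k (AdjoinRoot p) E :=
    IsScalarTower.of_algebraMap_eq fun x => (φ.commutes x).symm
  have : IsGalois (AdjoinRoot p) E := IsGalois.tower_top_of_isGalois k (AdjoinRoot p) E
  have hroot : algebraMap (AdjoinRoot p) E (AdjoinRoot.root p) = c := by
    change φ (AdjoinRoot.root p) = c
    exact AdjoinRoot.liftAlgHom_root _ _ _ _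
  have hX : (X - C (AdjoinRoot.root p)).Monic := monic_X_sub_C _
  have hmul : (X - C (AdjoinRoot.root p)) * quo p = p.map (AdjoinRoot.of p) := by
    unfold quo
    exact mul_divByMonic_eq_iff_isRoot.2 (AdjoinRoot.isRoot_root p)
  have hqm : (quo p).Monic := by
    refine hX.of_mul_monic_left ?_
    rw [hmul]
    exact hm.map _
  have hqi : Irreducible (quo p) := by
    refine Prime.irreducible ?_
    refine (Ideal.span_singleton_prime hqm.ne_zero).1 ?_
    exact (Ideal.Quotient.isDomain_iff_prime _).1 hD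
  have key : ∀ e : E, aeval e p = 0 → e ≠ c → aeval e (quo p) = 0 := by
    intro e he hec
    have h1 : aeval e ((X - C (AdjoinRoot.root p)) * quo p) = 0 := by
      rw [hmul, ← AdjoinRoot.algebraMap_eq, aeval_map_algebraMap, he]
    rw [map_mul, map_sub, aeval_X, aeval_C, hroot] at h1
    exact (mul_eq_zero.1 h1).resolve_left (sub_ne_zero.2 hec)
  have hσb : aeval (σ b) p = 0 := by
    have h1 : aeval (σ b) p = σ (aeval b p) := (aeval_algHom_apply σ.toAlgHom b p)
    rw [h1, hb, map_zero]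
  have hσbc : σ b ≠ c := by
    rw [← hσ]
    exact fun h => hab (σ.injective h).symm
  obtain ⟨τ, hτ⟩ := exists_aut hqm hqi (key _ hσb hσbc) (key _ hd hcd.symm)
  refine ⟨σ.trans (τ.restrictScalars k), ?_, ?_⟩
  · change τ (σ a) = c
    rw [hσ]
    have h1 := τ.commutes (AdjoinRoot.root p)
    rwa [hroot] at h1
  · exact hτ

theorem ext : SolvExtS := by
  intro k _ p hm hi hs hD hn hpp E _ _ _ _ hsol hspl
  classical
  have hF : Fact ((p.map (algebraMap k E)).Splits) := ⟨hspl⟩
  have h1 := Polynomial.Gal.restrict_surjective p E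
  have hsol' : Group.IsSolvable (E ≃ₐ[k] E) := hsol
  have hsolG : Group.IsSolvable p.Gal := Group.isSolvable_of_surjective h1
  have hfaith : FaithfulSMul p.Gal (p.rootSet E) :=
    ⟨fun {g h} hgh => Polynomial.Gal.galActionHom_injective p E (Equiv.ext hgh)⟩
  have hcard : Fintype.card (p.rootSet E) = p.natDegree := card_rootSet_eq_natDegree hs hspl
  refine hpp ?_
  rw [← hcard]
  refine solv p.Gal (p.rootSet E) hsolG ?_ (by rw [hcard]; exact hn)
  intro a b c d hab hcd
  have hr : ∀ x : p.rootSet E, aeval (x : E) p = 0 := fun x => (mem_rootSet.1 x.2).2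
  obtain ⟨σ, h2, h3⟩ := dbl p hm hi hD (hr a) (hr b) (hr c) (hr d) (fun h => hab (Subtype.ext h))
    (fun h => hcd (Subtype.ext h))
  refine ⟨Polynomial.Gal.restrict p E σ, Subtype.ext ?_, Subtype.ext ?_⟩
  · rw [Polynomial.Gal.restrict_smul, h2]
  · rw [Polynomial.Gal.restrict_smul, h3]

end Pool.Agent.Q45.NE.JSolv
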